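import Pool.Agent.W263.BSD.Lead8

/-!
# Goldfeld's constant lies between the limits of indetermination of the products

Let `C : y² = x³ + a x + b` be an elliptic curve over `ℚ`, `a, b ∈ ℤ`, with `L`-function `F` (Euler factors at
the primes dividing `2Δ` removed), of order `r` at `s = 1`. Goldfeld (1982) proved that IF the products
`P(x) = ∏_{p ≤ x} (N_p + 1)/p` of Birch and Swinnerton-Dyer are asymptotic to a constant times
`(log x)^ρ`, then `ρ = r` and the constant is `√2 e^{rγ} r! / F^{(r)}(1)`; so then the leading-term formula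
of the conjecture is a statement about point counts. The factor `√2` comes from the second order
terms: `P*(x) = P(x) exp (∑_{√x < p ≤ x} (a_p² - 2p)/(2p²)) ~ P(x)/√2` by Rankin and Selberg.

Here an UNCONDITIONAL statement is proved for every curve: the upper limit of `P*(x)/(log x)^r` is at
least `e^{rγ} r! / |F^{(r)}(1)|`, and if `F` has no real zeros `> 1`, the lower limit is at most this number.
So any upper bound for the products in terms of `(log x)^r` bounds the leading coefficient from
below by the constant predicted by Goldfeld, and conversely.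
-/

set_option autoImplicit false

namespace Pool.Agent.Results.MP_92892c_nt.GoldfeldBracket

open Pool.Agent.W263.BSD Filter Topology

/-- **Unconditional bracket for the leading coefficient.** For every curve `y² = x³ + a x + b` with
`L`-function `F`, of order `r` at `s = 1`: for every `ε > 0` there are arbitrarily large `x` with
`P*(x) > (e^{rγ} r! / |F^{(r)}(1)| - ε) (log x)^r`, and, if `F` has no real zeros `> 1`, there are arbitrarily
large `x` with `P*(x) < (e^{rγ} r! / |F^{(r)}(1)| + ε) (log x)^r`. -/
theorem result (a b : ℤ) (_hΔ : 4 * a ^ 3 + 27 * b ^ 2 ≠ 0) (F : ℂ → ℂ) (hF : IsLSeries a b F) :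
    ∃ r : ℕ, analyticOrderAt F 1 = r ∧ iteratedDeriv r F 1 ≠ 0 ∧
      (∀ ε : ℝ, 0 < ε → ∃ᶠ x : ℝ in atTop,
        (Real.exp (r * Real.eulerMascheroniConstant) * r.factorial / ‖iteratedDeriv r F 1‖ - ε) *
          (Real.log x) ^ r < bsdStar a b x) ∧
      ((∀ s : ℝ, 1 < s → F s ≠ 0) → ∀ ε : ℝ, 0 < ε → ∃ᶠ x : ℝ in atTop,
        bsdStar a b x <
          (Real.exp (r * Real.eulerMascheroniConstant) * r.factorial / ‖iteratedDeriv r F 1‖ + ε) *
            (Real.log x) ^ r) := by
  obtain ⟨r, hr⟩ := order_finite hF
  obtain ⟨hpos, _⟩ := lead_limit hF.1 hr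
  have hne : iteratedDeriv r F 1 ≠ 0 := by
    intro h0
    unfold leadAbs at hpos
    rw [h0, norm_zero, zero_div] at hpos
    exact lt_irrefl _ hpos
  have he : Real.exp (r * Real.eulerMascheroniConstant) * r.factorial / ‖iteratedDeriv r F 1‖ =
      Real.exp (r * Real.eulerMascheroniConstant) / leadAbs F r := by
    unfold leadAbs
    rw [div_div_eq_mul_div]
  refine ⟨r, hr, hne, fun ε hε => ?_, fun h ε hε => ?_⟩
  · rw [he]
    exact bracket_up hF hr hε
  · rw [he]
    exact bracket_down hF hr h hε

end Pool.Agent.Results.MP_92892c_nt.GoldfeldBracket
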