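import Pool.Agent.W263.BSD.Lead8

/-!
# One-sided slow variation of the products gives the leading coefficient

Let `C : y² = x³ + a x + b` be an elliptic curve over `ℚ`, `a, b ∈ ℤ`, with `L`-function `F` (Euler factors at
the primes dividing `2Δ` removed), of order `r` at `s = 1`, and let `P(x) = ∏_{p ≤ x, p ∤ 2Δ} (N_p + 1)/p`.

Goldfeld (1982) assumed that `P(x)` is asymptotic to `A (log x)^ρ` and deduced that `ρ = r`, that `F` has
no zeros with `Re s > 1`, and `A = √2 e^{rγ} r! / F^{(r)}(1)`. Here the hypothesis is replaced by a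
ONE-SIDED slow variation, which turns out to be equivalent: for every `ε > 0` there is `δ > 0` with
`P(y) ≤ (1 + ε) P(x)` for `x ≤ y ≤ x^{1+δ}` and large `x`. No bound for `P` from either side, no
information on zeros and nothing about the size of `P` is assumed. The opposite one-sided condition
is also equivalent, if `F` has no real zeros `> 1`.

The factor `√2` comes from the second order terms. To have a statement without further hypotheses
the asymptotics are stated for `P*(x) = P(x) exp (∑_{√x < p ≤ x} (a_p² - 2p)/(2p²))`; the last part shows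
that they hold for `P` with the factor `√2` if `∑_{√x < p ≤ x} (a_p² - p)/p² → 0` (Rankin and Selberg).
-/

set_option autoImplicit false

namespace Pool.Agent.Results.MP_92892c_nt.OneSidedAsymptotic

open Pool.Agent.W263.BSD Filter Topology

/-- One-sided slow variation (from above) of the product `P`. -/
def SlowUpper (a b : ℤ) : Prop :=
  ∀ ε : ℝ, 0 < ε → ∃ δ : ℝ, 0 < δ ∧ ∀ᶠ x : ℝ in atTop, ∀ y, x ≤ y → y ≤ x ^ (1 + δ) →
    bsdProduct a b y ≤ (1 + ε) * bsdProduct a b x

/-- One-sided slow variation (from below) of the product `P`. -/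
def SlowLower (a b : ℤ) : Prop :=
  ∀ ε : ℝ, 0 < ε → ∃ δ : ℝ, 0 < δ ∧ ∀ᶠ x : ℝ in atTop, ∀ y, x ≤ y → y ≤ x ^ (1 + δ) →
    bsdProduct a b x ≤ (1 + ε) * bsdProduct a b y

/-- **One-sided slow variation of the products is equivalent to their asymptotic formula with
Goldfeld's constant.** -/
theorem result (a b : ℤ) (hΔ : 4 * a ^ 3 + 27 * b ^ 2 ≠ 0) (F : ℂ → ℂ) (hF : IsLSeries a b F) :
    ∃ r : ℕ, analyticOrderAt F 1 = r ∧ iteratedDeriv r F 1 ≠ 0 ∧
      List.TFAE [
        Tendsto (fun x : ℝ => bsdStar a b x / (Real.log x) ^ r) atTop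
          (𝓝 (Real.exp (r * Real.eulerMascheroniConstant) * r.factorial /
            ‖iteratedDeriv r F 1‖)),
        ∃ C : ℝ, 0 < C ∧ Tendsto (fun x : ℝ => bsdStar a b x / (Real.log x) ^ r) atTop (𝓝 C),
        SlowUpper a b,
        (∀ s : ℝ, 1 < s → F s ≠ 0) ∧ SlowLower a b] ∧
      (SlowUpper a b → (∀ s : ℂ, 1 < s.re → F s ≠ 0) ∧
        iteratedDeriv r F 1 = (‖iteratedDeriv r F 1‖ : ℂ)) ∧
      (Tendsto (rsSum a b) atTop (𝓝 0) →
        (SlowUpper a b ↔ Tendsto (fun x : ℝ => bsdProduct a b x / (Real.log x) ^ r) atTop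
          (𝓝 (√2 * (Real.exp (r * Real.eulerMascheroniConstant) * r.factorial /
            ‖iteratedDeriv r F 1‖))))) := by
  obtain ⟨r, hr⟩ := order_finite hF
  obtain ⟨hpos, _⟩ := lead_limit hF.1 hr
  have hne : iteratedDeriv r F 1 ≠ 0 := by
    intro h0
    unfold leadAbs at hpos
    rw [h0, norm_zero, zero_div] at hpos
    exact lt_irrefl _ hpos
  have he : Real.exp (r * Real.eulerMascheroniConstant) * r.factorial / ‖iteratedDeriv r F 1‖ =
      Real.exp (r * Real.eulerMascheroniConstant) / leadAbs F r := by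
    unfold leadAbs
    rw [div_div_eq_mul_div]
  have ht := lead_tfae hF hr
  refine ⟨r, hr, hne, ?_⟩
  rw [he]
  refine ⟨ht, fun h => ?_, fun h => ?_⟩
  · have h1 : Tendsto (fun x : ℝ => bsdStar a b x / (Real.log x) ^ r) atTop
        (𝓝 (Real.exp (r * Real.eulerMascheroniConstant) / leadAbs F r)) := (ht.out 2 0).mp h
    obtain ⟨K, hK⟩ := order_of_tendsto (by positivity) h1
    refine ⟨fun s hs => no_zeros_of_order hF hK hs, coeff_real hF hr ?_⟩
    obtain ⟨K, u0, hK, hu0, hd⟩ := doubling_of_slow (slow_transfer h)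
    exact ((data 0 hF).order_of_upper ((eData a b).aak_abs 0) (eData a b).GG_bound
      (ordZero hF hr) hK hu0 hd).1
  · rw [product_iff_star hΔ h]
    exact ht.out 2 0

end Pool.Agent.Results.MP_92892c_nt.OneSidedAsymptotic
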