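import Pool.Agent.W187.S2.Law2
import Pool.Agent.W509.S2.JLIM
import Pool.Agent.W856.S2.MMPart
import Pool.Agent.W67.S2.JMM
import Pool.Agent.W975.S2.RS
import Pool.Agent.W196.S2.Refg
import Pool.Agent.W797.S2.Lip
import Pool.Agent.W351.S2.Jo
import Pool.Agent.W431.S2.KK

/-!
# The leading coefficient from the original Birch and Swinnerton-Dyer products, for every curve

Let `C : y² = x³ + a x + b` be an elliptic curve over `ℚ`, `a, b ∈ ℤ`, with `L`-function `F` (Euler factors
at the primes dividing `2Δ` removed), of order `r` at `s = 1`. Goldfeld (1982) proved that if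
`∏_{p ≤ x} (N_p + 1)/p ∼ A (log x)^ρ` then `ρ = r`, `A = √2 e^{rγ} r! / F^{(r)}(1)` and `F` has no zero with
`Re s > 1`. So with the sharp cut-off the relation between the products and the leading coefficient can
only be proved together with the Riemann hypothesis for `F`.

Here the sharp cut-off is replaced by the rotated kernel `K(u) = e^{icu} / Γ(1 + u)`, `c > π/2`, and the
relation is proved for EVERY elliptic curve over `ℚ`, without any hypothesis on the zeros of `F`, real
or complex:

`exp ∑_{p ∤ 2Δ} K(log p / log X) log ((N_p + 1)/p) ∼ √2 e^{-rΛ} (r! / F^{(r)}(1)) (log X)^r`,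

`Λ = ∫_0^∞ (e^{-t} - K(t)) dt/t`. The factor `√2` comes from the second order terms and needs the theorem of
Rankin and Selberg (`∑_{√x < p ≤ x} (a_p² - p)/p² → 0`), which is a hypothesis of this part only. The form
without it has the second order terms `(K(log p / log X) - K(2 log p / log X)) (a_p² - 2p)/(2p²)` added,
and holds with the error term `O(1 / log X)`.

Conversely the asymptotic formula with any exponent `ρ` and any constant `B ≠ 0` in place of the
leading coefficient implies `ρ = r` and `B = F^{(r)}(1)/r!`. So the leading-term formula of Birch and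
Swinnerton-Dyer (with `r` = rank and `B` = the algebraic side times the Euler factors removed) is
EQUIVALENT to an asymptotic formula for the original products.

Proof. `K(u)` is the integral of `e^{-zu}` against `exp(e^z) dz` along the boundary of a half strip, with
`z` shifted by `-ic`. For `c > π/2` the part of the contour on which `exp(e^z)` is not extremely small
lies below the real segment carrying the real zeros of `F`, where `log F` has a branch with
`log F(1 + w) = r log w + log (F^{(r)}(1)/r!) + O(|w| ...)`. The difference of the original series and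
`log F` is bounded in sectors and differentiable in `Re w > 0`, and by Rankin and Selberg it tends to
`(log 2)/2` along rays to `0`. Parts of the proof: see the imported files.
-/

set_option autoImplicit false

namespace Pool.Agent.Results.MP_92892c_nt.RotatedLeadingTerm

open Pool.Agent.W263.BSD Pool.Agent.W187.UR Pool.Agent.W187.S2 Filter Topology Asymptotics

/-- **The leading coefficient at `s = 1` from the rotated original products, for every curve.** -/
theorem result (a b : ℤ) (hΔ : 4 * a ^ 3 + 27 * b ^ 2 ≠ 0) (F : ℂ → ℂ)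
    (hF : IsLSeries a b F) :
    (∀ c X : ℝ, 1 < X → Summable fun p : ℕ => ‖pterm a b c X p‖) ∧
    ∃ r : ℕ, analyticOrderAt F 1 = r ∧ iteratedDeriv r F 1 ≠ 0 ∧
      ∀ c : ℝ, Real.pi / 2 < c →
        (fun X : ℝ => Complex.exp (pStar a b c X) / (Real.log X : ℂ) ^ r -
          Complex.exp (-(r * Lam c)) * (r.factorial / iteratedDeriv r F 1)) =O[atTop]
          (fun X : ℝ => 1 / Real.log X) ∧
        (Tendsto (rsSum a b) atTop (𝓝 0) →
          Tendsto (fun X : ℝ => Complex.exp (pSum a b c X) / (Real.log X : ℂ) ^ r) atTop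
            (𝓝 (√2 * (Complex.exp (-(r * Lam c)) * (r.factorial / iteratedDeriv r F 1))))) ∧
        ∀ (ρ : ℕ) (B : ℂ), B ≠ 0 →
          ((analyticOrderAt F 1 = ρ ∧ iteratedDeriv ρ F 1 / ρ.factorial = B) ↔
            Tendsto (fun X : ℝ => Complex.exp (pStar a b c X) / (Real.log X : ℂ) ^ ρ) atTop
              (𝓝 (Complex.exp (-(ρ * Lam c)) / B))) ∧
          (Tendsto (rsSum a b) atTop (𝓝 0) →
            ((analyticOrderAt F 1 = ρ ∧ iteratedDeriv ρ F 1 / ρ.factorial = B) ↔
              Tendsto (fun X : ℝ => Complex.exp (pSum a b c X) / (Real.log X : ℂ) ^ ρ) atTop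
                (𝓝 (√2 * (Complex.exp (-(ρ * Lam c)) / B))))) := by
  refine ⟨fun c X hX => pterm_summable c hX, ?_⟩
  have hjlim : S_JLIM := Pool.Agent.W509.S2.jlim
  have hmm : S_MM := Pool.Agent.W856.S2.mm_part
  have hjmm : S_JMM := Pool.Agent.W67.S2.jmm
  have href : S_REFG := Pool.Agent.W196.S2.refg
  have hrs : S_RS := Pool.Agent.W975.S2.rs
  have hlip : S_LIP := Pool.Agent.W797.S2.lip
  have hjo : S_JO := Pool.Agent.W351.S2.jo
  have hkk : S_KK := Pool.Agent.W431.S2.kkb
  obtain ⟨r, hr⟩ := order_finite hF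
  obtain ⟨hne, hs0, -, -⟩ := phi_factor hF hr
  obtain ⟨r₀, hexp, hstar⟩ := star_addO hlip hjo hkk hmm hjmm href hF hr
  have hf0 : (r.factorial : ℂ) ≠ 0 := by exact_mod_cast r.factorial_ne_zero
  refine ⟨r, hr, hne, fun c hc => ?_⟩
  have hc0 : 0 ≤ c := by have := Real.pi_pos; linarith
  have h0 := hstar c hc
  have h1 := add_of_O h0
  have hval : Complex.exp (-(r * Lam c) - r₀ + sig a b) =
      Complex.exp (-(r * Lam c)) * (r.factorial / iteratedDeriv r F 1) := by
    rw [Complex.exp_add, Complex.exp_sub, exp_sig, hexp]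
    field_simp
  have hO := exp_O h0
  rw [hval] at hO
  have hA : Tendsto (fun X : ℝ => Complex.exp (pStar a b c X) / (Real.log X : ℂ) ^ r) atTop
      (𝓝 (Complex.exp (-(r * Lam c)) * (r.factorial / iteratedDeriv r F 1))) := by
    have := exp_lim h1
    rwa [hval] at this
  have hB : Tendsto (rsSum a b) atTop (𝓝 0) →
      Tendsto (fun X : ℝ => Complex.exp (pSum a b c X) / (Real.log X : ℂ) ^ r) atTop
        (𝓝 (√2 * (Complex.exp (-(r * Lam c)) * (r.factorial / iteratedDeriv r F 1)))) := by
    intro hRS
    have h2 := exp_lim (sum_add hjlim hmm hjmm hrs hΔ hRS hc0 h1)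
    have h3 : Complex.exp (-(r * Lam c) - r₀ + sig a b + (Real.log 2 / 2 : ℝ)) =
        √2 * (Complex.exp (-(r * Lam c)) * (r.factorial / iteratedDeriv r F 1)) := by
      rw [Complex.exp_add, hval, ← Complex.ofReal_exp]
      have h4 : Real.exp (Real.log 2 / 2) = √2 := by
        rw [Real.sqrt_eq_rpow, Real.rpow_def_of_pos two_pos]
        congr 1; ring
      rw [h4, mul_comm]
    rwa [h3] at h2
  refine ⟨hO, hB, fun ρ B hB0 => ?_⟩
  have hc₁ : Complex.exp (-(r * Lam c)) * (r.factorial / iteratedDeriv r F 1) ≠ 0 :=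
    mul_ne_zero (Complex.exp_ne_zero _) (div_ne_zero hf0 hne)
  have hs2 : ((√2 : ℝ) : ℂ) ≠ 0 := by
    have : (0 : ℝ) < √2 := by positivity
    exact_mod_cast this.ne'
  have hpin : ∀ {ρ : ℕ}, r = ρ → Complex.exp (-(r * Lam c)) * (r.factorial / iteratedDeriv r F 1) =
      Complex.exp (-(ρ * Lam c)) / B → iteratedDeriv ρ F 1 / ρ.factorial = B := by
    intro ρ h h2
    subst h
    have h3 := Complex.exp_ne_zero (-((r : ℂ) * Lam c))
    rw [div_eq_mul_inv (Complex.exp (-((r : ℂ) * Lam c))) B] at h2
    have h4 := mul_left_cancel₀ h3 h2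
    rw [← inv_inj, ← h4, inv_div]
  constructor
  · constructor
    · rintro ⟨h2, h3⟩
      rw [hr] at h2
      have h4 : r = ρ := by exact_mod_cast h2
      subst h4
      rw [← h3]
      refine hA.trans (le_of_eq ?_)
      congr 1
      rw [div_div_eq_mul_div, mul_div_assoc]
    · intro h2
      obtain ⟨h3, h4⟩ := pow_unique hA h2 hc₁ (div_ne_zero (Complex.exp_ne_zero _) hB0)
      refine ⟨by rw [hr, h3], hpin h3 h4⟩
  · intro hRS
    constructor
    · rintro ⟨h2, h3⟩
      rw [hr] at h2
      have h4 : r = ρ := by exact_mod_cast h2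
      subst h4
      rw [← h3]
      refine (hB hRS).trans (le_of_eq ?_)
      congr 2
      rw [div_div_eq_mul_div, mul_div_assoc]
    · intro h2
      obtain ⟨h3, h4⟩ := pow_unique (hB hRS) h2 (mul_ne_zero hs2 hc₁)
        (mul_ne_zero hs2 (div_ne_zero (Complex.exp_ne_zero _) hB0))
      exact ⟨by rw [hr, h3], hpin h3 (mul_left_cancel₀ hs2 h4)⟩

end Pool.Agent.Results.MP_92892c_nt.RotatedLeadingTerm
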