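import Pool.Agent.W263.SP.Fin

/-!
# The leading coefficient and the original products, outside of sparse sets

Let `C : y² = x³ + a x + b` be an elliptic curve over `ℚ`, `a, b ∈ ℤ`, let `F(s) = L(C, s)` be the (entire
continuation of the) incomplete L-series, `r = ord_{s=1} F`, `c = |F^{(r)}(1)| / r!` its leading
coefficient, `P(x) = ∏_{p ≤ x, p ∤ 2Δ} (N_p + 1) / p` the products of Birch and Swinnerton-Dyer and
`P*(x) = P(x) exp (∑_{√x < p ≤ x} (a_p² - 2p) / (2p²))`, which is asymptotically `P(x) / √2` by the theorem of
Rankin and Selberg.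

Goldfeld (1982): if `P(x) ~ A (log x)^ρ`, then `F` has no zeros with `Re s > 1`, `r = ρ` and
`A = √2 e^{γρ} / c`; so the leading-term formula can be read off from the products.  The asymptotic
formula is deeper than the Riemann hypothesis (Kuo and Murty, Conrad).  On the Riemann hypothesis it holds
outside of a set of finite logarithmic measure (Sheth 2024).

Here it is proved that on the Riemann hypothesis the exceptional sets are very sparse and the error term
is almost optimal: with some `κ, C > 0` the set of the `x` in `[X, 2X]` with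
`|log (P*(x) / (e^{γr} c⁻¹ (log x)^r))| > ε` has measure at most `X exp (-κ (ε log X / log log X)^{1/2})`, for
all large `X` and all `ε ≥ C (log log X)³ / log X`.  (For instance the formula holds with the error
`O((log log x)³ / log x)` outside of a set of density `O((log X)^{-A})`, and all the moments of the error
over `[X, 2X]` are of this order.)  Conversely, if `P*(x)` is asymptotic to `e^{γρ} B⁻¹ (log x)^ρ` in this
sense (or only in logarithmic mean) and the products satisfy a very weak upper bound, then the Riemann
hypothesis holds, `r = ρ` and `c = B`.  In particular the weak law in the mean improves itself to the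
strong law.  With `B` the value predicted by the leading-term formula and `ρ` the rank this is an
equivalent form of the formula, together with the rank conjecture and the Riemann hypothesis.

The proof smoothes `(log x) log P*(x)` on the multiplicative scale `1 + 1/T`: the smoothed function is
`O(log² T log log x)`, which uses bounds in the mean for `L'/L` on the lines `Re s = 1 + 1/log x` up to
the zeros, and the difference is small in mean square.
-/

set_option autoImplicit false

namespace Pool.Agent.Results.MP_92892c_nt.SparseExceptions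

open MeasureTheory Filter Topology Set
open Pool.Agent.W263.BSD (pointCount GoodPrime IsLSeries order_finite bsdProduct bsdStar leadAbs
  lead_limit)
open Pool.Agent.W263.LG (productMean)
open Pool.Agent.W263.MS (RankinSelberg secondMoment InMean)
open Pool.Agent.W263.SP (SparseLaw Sparse)

/-- `|F(s)| ≤ C (1 + |s|)^A` for `Re s > 0`, for some `C` and `A`. -/
def PolyGrowth (F : ℂ → ℂ) : Prop :=
  ∃ (C : ℝ) (A : ℕ), ∀ s : ℂ, 0 < s.re → ‖F s‖ ≤ C * (1 + ‖s‖) ^ A

/-- The Riemann hypothesis: `F` has no zeros with `Re s > 1`. -/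
def RH (F : ℂ → ℂ) : Prop := ∀ s : ℂ, 1 < s.re → F s ≠ 0

/-- For some `k`: `R_k(x) ≤ x^ε` for all `ε > 0` and large `x`. -/
def SubPower (a b : ℤ) : Prop :=
  ∃ k : ℕ, ∀ ε : ℝ, 0 < ε → ∀ᶠ x : ℝ in atTop, productMean a b k x ≤ x ^ ε

/-- **The leading coefficient and the products outside of sparse sets.** -/
theorem result (a b : ℤ) (hΔ : 4 * a ^ 3 + 27 * b ^ 2 ≠ 0) (F : ℂ → ℂ) (hF : IsLSeries a b F)
    (hG : PolyGrowth F) :
    ∃ r : ℕ, analyticOrderAt F 1 = r ∧ 0 < leadAbs F r ∧ ∀ ρ B : ℝ, 0 < B →
      List.TFAE [
        RH F ∧ (r : ℝ) = ρ ∧ leadAbs F r = B,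
        InMean (bsdStar a b) ρ (Real.exp (ρ * Real.eulerMascheroniConstant) / B),
        SubPower a b ∧ Sparse (bsdStar a b) ρ (Real.exp (ρ * Real.eulerMascheroniConstant) / B)] ∧
      (RankinSelberg a b → List.TFAE [
        RH F ∧ (r : ℝ) = ρ ∧ leadAbs F r = B,
        InMean (bsdProduct a b) ρ (√2 * (Real.exp (ρ * Real.eulerMascheroniConstant) / B)),
        SubPower a b ∧
          Sparse (bsdProduct a b) ρ (√2 * (Real.exp (ρ * Real.eulerMascheroniConstant) / B))]) := by
  obtain ⟨r, hr⟩ := order_finite hF
  obtain ⟨hpos, _⟩ := lead_limit hF.1 hr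
  have hpos' : 0 < leadAbs F r := hpos
  refine ⟨r, hr, hpos, fun ρ B hB => ?_⟩
  have hA0 : 0 < Real.exp (ρ * Real.eulerMascheroniConstant) / B := by positivity
  have hc : ∀ κ : ℝ, Real.exp κ * (Real.exp (ρ * Real.eulerMascheroniConstant) / B) =
      Real.exp κ * Real.exp (ρ * Real.eulerMascheroniConstant) / leadAbs F r ↔
        leadAbs F r = B := by
    intro κ
    rw [← mul_div_assoc]
    constructor
    · intro h
      rw [div_eq_div_iff hB.ne' hpos'.ne'] at h
      exact mul_left_cancel₀ (by positivity) h
    · intro h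
      rw [h]
  have key : ∀ (Q : ℝ → ℝ) (κ : ℝ), Pool.Agent.W263.MS.QData a b Q κ → List.TFAE [
        RH F ∧ (r : ℝ) = ρ ∧ leadAbs F r = B,
        InMean Q ρ (Real.exp κ * (Real.exp (ρ * Real.eulerMascheroniConstant) / B)),
        SubPower a b ∧
          Sparse Q ρ (Real.exp κ * (Real.exp (ρ * Real.eulerMascheroniConstant) / B))] := by
    intro Q κ hQ
    have hA1 : 0 < Real.exp κ * (Real.exp (ρ * Real.eulerMascheroniConstant) / B) := by positivity
    have h1 := (Pool.Agent.W263.MS.eq_growth hΔ hF hr hG hQ ρ hA1).out 0 2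
    have h2 := Pool.Agent.W263.SP.eq_sparse hΔ hF hr hG hQ ρ hA1
    rw [hc κ] at h1 h2
    tfae_have 1 ↔ 2 := h1
    tfae_have 1 ↔ 3 := h2
    tfae_finish
  constructor
  · have h := key _ 0 (Pool.Agent.W263.MS.qdata_star (a := a) (b := b) hΔ)
    rw [Real.exp_zero, one_mul] at h
    exact h
  · intro hRS
    have h := key _ _ (Pool.Agent.W263.MS.qdata_P hΔ hRS)
    have e : Real.exp (1 / 2 * Real.log 2) = √2 := by
      rw [Real.sqrt_eq_rpow, Real.rpow_def_of_pos (by norm_num)]
      congr 1
      ring
    rw [e] at h
    exact h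

end Pool.Agent.Results.MP_92892c_nt.SparseExceptions
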